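import Pool.Agent.helper27.SY.F

/-! Project sy: the tables as functions, and their checks. Generated. -/

set_option autoImplicit false
set_option maxRecDepth 100000

namespace Pool.Agent.SY

open Pool.Agent.SX

/-- lower table of the octave `r` at `60 + 3 q` -/
def LN : ℕ → ℕ → ℕ
  | 0, 0 => L0_0
  | 0, 1 => L0_1
  | 0, 2 => L0_2
  | 0, 3 => L0_3
  | 0, 4 => L0_4
  | 0, 5 => L0_5
  | 0, 6 => L0_6
  | 0, 7 => L0_7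
  | 0, 8 => L0_8
  | 0, 9 => L0_9
  | 0, 10 => L0_10
  | 0, 11 => L0_11
  | 0, 12 => L0_12
  | 0, 13 => L0_13
  | 0, 14 => L0_14
  | 0, 15 => L0_15
  | 0, 16 => L0_16
  | 0, 17 => L0_17
  | 0, 18 => L0_18
  | 0, 19 => L0_19
  | 0, 20 => L0_20
  | 1, 0 => L1_0
  | 1, 1 => L1_1
  | 1, 2 => L1_2
  | 1, 3 => L1_3
  | 1, 4 => L1_4
  | 1, 5 => L1_5
  | 1, 6 => L1_6
  | 1, 7 => L1_7
  | 1, 8 => L1_8
  | 1, 9 => L1_9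
  | 1, 10 => L1_10
  | 1, 11 => L1_11
  | 1, 12 => L1_12
  | 1, 13 => L1_13
  | 1, 14 => L1_14
  | 1, 15 => L1_15
  | 1, 16 => L1_16
  | 1, 17 => L1_17
  | 1, 18 => L1_18
  | 1, 19 => L1_19
  | 1, 20 => L1_20
  | 2, 0 => L2_0
  | 2, 1 => L2_1
  | 2, 2 => L2_2
  | 2, 3 => L2_3
  | 2, 4 => L2_4
  | 2, 5 => L2_5
  | 2, 6 => L2_6
  | 2, 7 => L2_7
  | 2, 8 => L2_8
  | 2, 9 => L2_9
  | 2, 10 => L2_10
  | 2, 11 => L2_11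
  | 2, 12 => L2_12
  | 2, 13 => L2_13
  | 2, 14 => L2_14
  | 2, 15 => L2_15
  | 2, 16 => L2_16
  | 2, 17 => L2_17
  | 2, 18 => L2_18
  | 2, 19 => L2_19
  | 2, 20 => L2_20
  | _, _ => 0

/-- upper table of the octave `r` at `60 + 3 q` -/
def UN : ℕ → ℕ → ℕ
  | 0, 0 => U0_0
  | 0, 1 => U0_1
  | 0, 2 => U0_2
  | 0, 3 => U0_3
  | 0, 4 => U0_4
  | 0, 5 => U0_5
  | 0, 6 => U0_6
  | 0, 7 => U0_7
  | 0, 8 => U0_8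
  | 0, 9 => U0_9
  | 0, 10 => U0_10
  | 0, 11 => U0_11
  | 0, 12 => U0_12
  | 0, 13 => U0_13
  | 0, 14 => U0_14
  | 0, 15 => U0_15
  | 0, 16 => U0_16
  | 0, 17 => U0_17
  | 0, 18 => U0_18
  | 0, 19 => U0_19
  | 0, 20 => U0_20
  | 1, 0 => U1_0
  | 1, 1 => U1_1
  | 1, 2 => U1_2
  | 1, 3 => U1_3
  | 1, 4 => U1_4
  | 1, 5 => U1_5
  | 1, 6 => U1_6
  | 1, 7 => U1_7
  | 1, 8 => U1_8
  | 1, 9 => U1_9
  | 1, 10 => U1_10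
  | 1, 11 => U1_11
  | 1, 12 => U1_12
  | 1, 13 => U1_13
  | 1, 14 => U1_14
  | 1, 15 => U1_15
  | 1, 16 => U1_16
  | 1, 17 => U1_17
  | 1, 18 => U1_18
  | 1, 19 => U1_19
  | 1, 20 => U1_20
  | 2, 0 => U2_0
  | 2, 1 => U2_1
  | 2, 2 => U2_2
  | 2, 3 => U2_3
  | 2, 4 => U2_4
  | 2, 5 => U2_5
  | 2, 6 => U2_6
  | 2, 7 => U2_7
  | 2, 8 => U2_8
  | 2, 9 => U2_9
  | 2, 10 => U2_10
  | 2, 11 => U2_11
  | 2, 12 => U2_12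
  | 2, 13 => U2_13
  | 2, 14 => U2_14
  | 2, 15 => U2_15
  | 2, 16 => U2_16
  | 2, 17 => U2_17
  | 2, 18 => U2_18
  | 2, 19 => U2_19
  | 2, 20 => U2_20
  | _, _ => 0

/-- one block -/
theorem stepN : ∀ r < 3, ∀ q < 20,
    chkLn 1801 (En q) (63 + 3 * q) (LN r q) (UN r q) (LN r (q + 1)) = true ∧
    chkUn 1801 (En q) (63 + 3 * q) (LN r q) (UN r q) (UN r (q + 1)) = true := by
  intro r hr q hq
  interval_cases r <;> interval_cases q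
  · exact ⟨sL0_1, sU0_1⟩
  · exact ⟨sL0_2, sU0_2⟩
  · exact ⟨sL0_3, sU0_3⟩
  · exact ⟨sL0_4, sU0_4⟩
  · exact ⟨sL0_5, sU0_5⟩
  · exact ⟨sL0_6, sU0_6⟩
  · exact ⟨sL0_7, sU0_7⟩
  · exact ⟨sL0_8, sU0_8⟩
  · exact ⟨sL0_9, sU0_9⟩
  · exact ⟨sL0_10, sU0_10⟩
  · exact ⟨sL0_11, sU0_11⟩
  · exact ⟨sL0_12, sU0_12⟩
  · exact ⟨sL0_13, sU0_13⟩
  · exact ⟨sL0_14, sU0_14⟩
  · exact ⟨sL0_15, sU0_15⟩
  · exact ⟨sL0_16, sU0_16⟩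
  · exact ⟨sL0_17, sU0_17⟩
  · exact ⟨sL0_18, sU0_18⟩
  · exact ⟨sL0_19, sU0_19⟩
  · exact ⟨sL0_20, sU0_20⟩
  · exact ⟨sL1_1, sU1_1⟩
  · exact ⟨sL1_2, sU1_2⟩
  · exact ⟨sL1_3, sU1_3⟩
  · exact ⟨sL1_4, sU1_4⟩
  · exact ⟨sL1_5, sU1_5⟩
  · exact ⟨sL1_6, sU1_6⟩
  · exact ⟨sL1_7, sU1_7⟩
  · exact ⟨sL1_8, sU1_8⟩
  · exact ⟨sL1_9, sU1_9⟩
  · exact ⟨sL1_10, sU1_10⟩
  · exact ⟨sL1_11, sU1_11⟩
  · exact ⟨sL1_12, sU1_12⟩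
  · exact ⟨sL1_13, sU1_13⟩
  · exact ⟨sL1_14, sU1_14⟩
  · exact ⟨sL1_15, sU1_15⟩
  · exact ⟨sL1_16, sU1_16⟩
  · exact ⟨sL1_17, sU1_17⟩
  · exact ⟨sL1_18, sU1_18⟩
  · exact ⟨sL1_19, sU1_19⟩
  · exact ⟨sL1_20, sU1_20⟩
  · exact ⟨sL2_1, sU2_1⟩
  · exact ⟨sL2_2, sU2_2⟩
  · exact ⟨sL2_3, sU2_3⟩
  · exact ⟨sL2_4, sU2_4⟩
  · exact ⟨sL2_5, sU2_5⟩
  · exact ⟨sL2_6, sU2_6⟩
  · exact ⟨sL2_7, sU2_7⟩
  · exact ⟨sL2_8, sU2_8⟩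
  · exact ⟨sL2_9, sU2_9⟩
  · exact ⟨sL2_10, sU2_10⟩
  · exact ⟨sL2_11, sU2_11⟩
  · exact ⟨sL2_12, sU2_12⟩
  · exact ⟨sL2_13, sU2_13⟩
  · exact ⟨sL2_14, sU2_14⟩
  · exact ⟨sL2_15, sU2_15⟩
  · exact ⟨sL2_16, sU2_16⟩
  · exact ⟨sL2_17, sU2_17⟩
  · exact ⟨sL2_18, sU2_18⟩
  · exact ⟨sL2_19, sU2_19⟩
  · exact ⟨sL2_20, sU2_20⟩

/-- passing to the next octave -/
theorem crossN : ∀ r < 2, chkCn 0 (LN r 20) (LN (r + 1) 0) = true ∧ chkCn 60 (UN r 20) (UN (r + 1) 0) = true := by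
  intro r hr
  interval_cases r
  · exact ⟨cL1, cU1⟩
  · exact ⟨cL2, cU2⟩

theorem startN : chkH 0 L7_0 (LN 0 0) = true ∧ chkH 60 U7_0 (UN 0 0) = true := ⟨hL0, hU0⟩

lemma frc_eq {β : Type} (n : ℕ) (f : ℕ → β) : frc n f = f n := by
  cases n <;> rfl

lemma allB_get (n : ℕ) (p : ℕ → Bool) (h : allB n p = true) : ∀ i < n, p i = true := by
  induction n with
  | zero => intro i hi; exact absurd hi (Nat.not_lt_zero i)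
  | succ n ih =>
    have h1 : allB (n + 1) p = (p n && allB n p) := rfl
    rw [h1, Bool.and_eq_true] at h
    intro i hi
    rcases Nat.lt_succ_iff_lt_or_eq.mp hi with h2 | h2
    · exact ih h.2 i h2
    · rw [h2]; exact h.1

lemma get0 (a lo n L U LM : ℕ) (h : chkM0 a lo n L U LM = true) (Y : ℕ) (h1 : lo ≤ Y) (h2 : Y < lo + n) :
    950 * (Y + 1) ≤ 10000 * a ∧
      ∃ lam, chkF (46701 * Y - 60000) (17785 * Y) a Y (7 * Y / 5) lam L U = true := by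
  have h3 := allB_get _ _ h (Y - lo) (by omega)
  simp only [frc_eq] at h3
  rw [show lo + (Y - lo) = Y by omega, Bool.and_eq_true] at h3
  exact ⟨Nat.le_of_ble_eq_true h3.1, _, h3.2⟩

lemma get1 (a lo n L U LM : ℕ) (h : chkM1 a lo n L U LM = true) (Y : ℕ) (h1 : lo ≤ Y) (h2 : Y < lo + n) :
    1091 * (Y + 1) ≤ 10000 * a ∧ ∃ lam, chkF 293 100 a Y (13 * Y / 10) lam L U = true := by
  have h3 := allB_get _ _ h (Y - lo) (by omega)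
  simp only [frc_eq] at h3
  rw [show lo + (Y - lo) = Y by omega, Bool.and_eq_true] at h3
  exact ⟨Nat.le_of_ble_eq_true h3.1, _, h3.2⟩

theorem fin0 (Y : ℕ) (h1 : 485 ≤ Y) (h2 : Y < 970) : ∃ q lam : ℕ, q ≤ 20 ∧ 950 * (Y + 1) ≤ 10000 * (60 + 3 * q) ∧
    chkF (46701 * Y - 60000) (17785 * Y) (60 + 3 * q) Y (7 * Y / 5) lam (LN 2 q) (UN 2 q) = true := by
  rcases Nat.lt_or_ge Y 507 with h3 | h3
  · obtain ⟨k1, lam, k2⟩ := get0 66 485 22 _ _ _ f0_0 Y (by omega) (by omega)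
    exact ⟨2, lam, by norm_num, k1, k2⟩
  rcases Nat.lt_or_ge Y 536 with h4 | h4
  · obtain ⟨k1, lam, k2⟩ := get0 69 507 29 _ _ _ f0_1 Y (by omega) (by omega)
    exact ⟨3, lam, by norm_num, k1, k2⟩
  rcases Nat.lt_or_ge Y 589 with h5 | h5
  · obtain ⟨k1, lam, k2⟩ := get0 75 536 53 _ _ _ f0_2 Y (by omega) (by omega)
    exact ⟨5, lam, by norm_num, k1, k2⟩
  rcases Nat.lt_or_ge Y 667 with h6 | h6
  · obtain ⟨k1, lam, k2⟩ := get0 84 589 78 _ _ _ f0_3 Y (by omega) (by omega)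
    exact ⟨8, lam, by norm_num, k1, k2⟩
  rcases Nat.lt_or_ge Y 769 with h7 | h7
  · obtain ⟨k1, lam, k2⟩ := get0 96 667 102 _ _ _ f0_4 Y (by omega) (by omega)
    exact ⟨12, lam, by norm_num, k1, k2⟩
  rcases Nat.lt_or_ge Y 922 with h8 | h8
  · obtain ⟨k1, lam, k2⟩ := get0 114 769 153 _ _ _ f0_5 Y (by omega) (by omega)
    exact ⟨18, lam, by norm_num, k1, k2⟩
  obtain ⟨k1, lam, k2⟩ := get0 120 922 48 _ _ _ f0_6 Y (by omega) (by omega)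
  exact ⟨20, lam, by norm_num, k1, k2⟩

theorem fin1 (Y : ℕ) (h1 : 485 ≤ Y) (h2 : Y < 970) : ∃ q lam : ℕ, q ≤ 20 ∧ 1091 * (Y + 1) ≤ 10000 * (60 + 3 * q) ∧
    chkF 293 100 (60 + 3 * q) Y (13 * Y / 10) lam (LN 2 q) (UN 2 q) = true := by
  rcases Nat.lt_or_ge Y 549 with h3 | h3
  · obtain ⟨k1, lam, k2⟩ := get1 60 485 64 _ _ _ f1_0 Y (by omega) (by omega)
    exact ⟨0, lam, by norm_num, k1, k2⟩
  rcases Nat.lt_or_ge Y 659 with h4 | h4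
  · obtain ⟨k1, lam, k2⟩ := get1 72 549 110 _ _ _ f1_1 Y (by omega) (by omega)
    exact ⟨4, lam, by norm_num, k1, k2⟩
  rcases Nat.lt_or_ge Y 797 with h5 | h5
  · obtain ⟨k1, lam, k2⟩ := get1 87 659 138 _ _ _ f1_2 Y (by omega) (by omega)
    exact ⟨9, lam, by norm_num, k1, k2⟩
  obtain ⟨k1, lam, k2⟩ := get1 108 797 173 _ _ _ f1_3 Y (by omega) (by omega)
  exact ⟨16, lam, by norm_num, k1, k2⟩

end Pool.Agent.SY
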