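import Pool.Agent.helper27.SY.Spec
import Pool.Agent.helper27.SY.Tab
import Pool.Agent.helper79.SX.AsmB

/-! # Project sy: assembly, part 1 (the tables are valid) -/

set_option autoImplicit false

open Finset ArithmeticFunction

namespace Pool.Agent.SY

open Pool.Agent.SX

lemma W_dig_nonneg (L i : ℕ) : (0 : ℝ) ≤ (dig L i : ℝ) / 2 ^ 40 := by positivity

/-- one octave of blocks (tables of project sx) -/
lemma WTAB_oct (hSAD : SAD_stmt) (hDAT : DAT_stmt) (hELL : ELL_stmt) (hCKE : CKE_stmt) (hWSTT : WSTT_stmt)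
    (o : ℕ) (h0 : WTab 901 (30 * 2 ^ o) (2 ^ o) 30 (LT (min o 7) 0) (UT (min o 7) 0)) (q : ℕ) (hq : q ≤ 10) :
    WTab 901 ((30 + 3 * q) * 2 ^ o) (2 ^ o) (30 + 3 * q) (LT (min o 7) q) (UT (min o 7) q) := by
  induction q with
  | zero => simpa using h0
  | succ q ih =>
    have h1 := ih (by omega)
    have h2 := step_all (min o 7) (by omega) q (by omega)
    have p := pow_ge o
    have e : 30 + 3 * (q + 1) = 33 + 3 * q := by ring
    rw [e]
    refine hWSTT 901 _ _ _ (30 + 3 * q) _ _ _ _ _ _ ?_ ?_ rfl (by omega) (by omega)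
      (EOK_all hSAD hDAT hELL hCKE o q (by omega)) h1 h2.2.1 h2.2.2
    · nlinarith
    · exact Nat.mul_le_mul_right _ (by omega)

lemma WTail_step (hWMB : WMB_stmt) (hWTLS : WTLS_stmt) (h w a L U : ℕ) (hh : 28 ≤ h) (e : 30 * w = h) (ha : a ≤ 60)
    (hT : WTab 901 h w a L U) (hL : chkT L = true) (hU : chkT U = true) (ht : WTail h)
    (h1 : sig h (2 * h) ≤ 31 / 20) (h2 : 1 / 5 ≤ V (Bl h (2 * h))) : WTail (2 * h) := by
  refine hWTLS h hh ht ?_ h1 h2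
  intro j hj1 hj2
  have c1 : ∀ X : ℕ, chkT X = true → (dig X (30 * j) : ℝ) / 2 ^ 40 ≤ 600 / 3 ^ j := by
    intro X hX
    have h3 := allB_get _ _ hX j hj2
    simp only [Bool.or_eq_true] at h3
    rcases h3 with h3 | h3
    · exfalso
      have : j < 2 := by
        have := Nat.le_of_ble_eq_true (show Nat.ble (j + 1) 2 = true from h3)
        omega
      omega
    · have h4 := Nat.le_of_ble_eq_true h3
      rw [div_le_div_iff₀ (by positivity) (by positivity)]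
      have h5 : ((dig X (30 * j) * 3 ^ j : ℕ) : ℝ) ≤ ((600 * 1099511627776 : ℕ) : ℝ) := by exact_mod_cast h4
      push_cast at h5
      norm_num at h5 ⊢
      exact h5
  have e1 : j * h = 30 * j * w := by rw [← e]; ring
  rw [e1]
  constructor
  · exact hWMB.1 _ _ _ _ _ (le_refl _) (c1 L hL) (hT.1 (30 * j) (by omega))
  · exact hWMB.2.1 _ _ _ _ _ (le_refl _) (c1 U hU) (hT.2 (30 * j) (by omega) (by omega))

/-- the tables at the beginning of an octave (project sx) -/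
lemma WSTATE (hSAD : SAD_stmt) (hDAT : DAT_stmt) (hELL : ELL_stmt) (hCKE : CKE_stmt) (hWMB : WMB_stmt)
    (hWSTT : WSTT_stmt) (hWCR : WCR_stmt) (hWTLS : WTLS_stmt) (hSIG : SIG_stmt)
    (hLPA : LPA_stmt) (hLPM : LPM_stmt) (hVBD : VBD_stmt) (o : ℕ) :
    WTab 901 (30 * 2 ^ o) (2 ^ o) 30 (LT (min o 7) 0) (UT (min o 7) 0) ∧ WTail (30 * 2 ^ o) := by
  induction o with
  | zero =>
    constructor
    · have h1 : WTab 901 28 1 28 Linit Linit :=
        ⟨fun i _ => (hWMB.2.2.2.1 _ _ (W_dig_nonneg _ _)).1, fun i _ _ => (hWMB.2.2.2.1 _ _ (W_dig_nonneg _ _)).2⟩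
      have h2 : sig 28 30 ≤ (linit : ℝ) / 2 ^ 44 := by
        rw [linit_data]
        have := sig_data hSAD hDAT 28 2 (by norm_num) (by norm_num)
        simpa [List.range_succ] using this
      have h3 : EOK 28 30 Einit := hCKE _ _ _ _ _ (le_refl _) (le_refl _) (by norm_num) h2 init_E
      exact hWSTT 901 28 30 1 28 30 _ _ _ _ _ (le_refl _) (by norm_num) (by norm_num) (by norm_num) (by norm_num)
        h3 h1 init_L init_U
    · intro m hm
      have h1 : (29 : ℕ) ≤ m * (30 * 2 ^ 0) := by omega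
      exact hWMB.2.2.2.2 _ _ h1 (by positivity)
  | succ o ih =>
    obtain ⟨h1, h2⟩ := ih
    have p := pow_ge o
    have h3 := WTAB_oct hSAD hDAT hELL hCKE hWSTT o h1 10 (le_refl _)
    have h4 := OCT hSAD hDAT hSIG hLPA hLPM hVBD o
    have h5 := tail_all (min o 7) (by omega)
    have e0 : 60 * 2 ^ o = 2 * (30 * 2 ^ o) := by ring
    rw [e0] at h4
    have h6 : WTail (2 * (30 * 2 ^ o)) :=
      WTail_step hWMB hWTLS _ (2 ^ o) 30 _ _ (by omega) rfl (by norm_num) h1 h5.1 h5.2 h2 h4.1 h4.2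
    rw [← e0] at h6
    have h7 := coarse_all (min o 7) (by omega)
    have e : min (min o 7 + 1) 7 = min (o + 1) 7 := by omega
    rw [e] at h7
    have h8 := hWCR.2.2 _ _ _ _ _ p (by simpa using h3) h6 h7.1 h7.2
    have e1 : 30 * 2 ^ (o + 1) = 60 * 2 ^ o := by ring
    have e2 : 2 ^ (o + 1) = 2 * 2 ^ o := by ring
    rw [e1]
    refine ⟨?_, h6⟩
    rw [e2]
    exact h8

/-- block data of the new octaves -/
lemma EOKN (hCKE : CKE_stmt) (hSGB : SGB_stmt) (w q : ℕ) (hw : 2 ^ 13 ≤ w) (hq : q < 20) :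
    EOK ((60 + 3 * q) * w) ((63 + 3 * q) * w) (En q) := by
  refine hCKE _ 491520 _ _ _ (by norm_num) ?_ (Nat.mul_le_mul_right _ (by omega)) (hSGB w q hw hq)
    (allB_get _ _ en_all q hq)
  nlinarith

/-- one new octave of blocks -/
lemma NTAB_oct (hCKE : CKE_stmt) (hSGB : SGB_stmt) (hWSTT : WSTT_stmt) (r w : ℕ) (hr : r < 3) (hw : 2 ^ 13 ≤ w)
    (h0 : WTab 1801 (60 * w) w 60 (LN r 0) (UN r 0)) (q : ℕ) (hq : q ≤ 20) :
    WTab 1801 ((60 + 3 * q) * w) w (60 + 3 * q) (LN r q) (UN r q) := by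
  induction q with
  | zero => simpa using h0
  | succ q ih =>
    have h1 := ih (by omega)
    have h2 := stepN r hr q (by omega)
    have e : 60 + 3 * (q + 1) = 63 + 3 * q := by ring
    rw [e]
    refine hWSTT 1801 _ _ _ (60 + 3 * q) _ _ _ _ _ _ ?_ ?_ rfl (by omega) (by omega)
      (EOKN hCKE hSGB w q hw (by omega)) h1 h2.1 h2.2
    · nlinarith
    · exact Nat.mul_le_mul_right _ (by omega)

/-- the new tables at the beginning of an octave -/
lemma NSTATE (hCKE : CKE_stmt) (hSGB : SGB_stmt) (hWSTT : WSTT_stmt) (hWCR : WCR_stmt)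
    (hS : ∀ o, WTab 901 (30 * 2 ^ o) (2 ^ o) 30 (LT (min o 7) 0) (UT (min o 7) 0) ∧ WTail (30 * 2 ^ o))
    (o : ℕ) (ho : 13 ≤ o) (r : ℕ) (hr : r < 3) :
    WTab 1801 (60 * 2 ^ (o + r)) (2 ^ (o + r)) 60 (LN r 0) (UN r 0) := by
  induction r with
  | zero =>
    have h1 := (hS (o + 1)).1
    rw [show min (o + 1) 7 = 7 by omega, show 30 * 2 ^ (o + 1) = 60 * 2 ^ o by ring,
      show 2 ^ (o + 1) = 2 * 2 ^ o by ring] at h1
    exact hWCR.1 (2 ^ o) _ _ _ _ h1 startN.1 startN.2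
  | succ r ih =>
    have h1 := ih (by omega)
    have hw : 2 ^ 13 ≤ 2 ^ (o + r) := Nat.pow_le_pow_right (by norm_num) (by omega)
    have h2 := NTAB_oct hCKE hSGB hWSTT r (2 ^ (o + r)) (by omega) hw h1 20 (le_refl _)
    have h3 := crossN r (by omega)
    have h4 := (hS (o + r + 2)).2
    have e1 : 30 * 2 ^ (o + r + 2) = 120 * 2 ^ (o + r) := by ring
    rw [e1] at h4
    have h5 := hWCR.2.1 (2 ^ (o + r)) _ _ _ _ (pow_ge _) (by simpa using h2) h4 h3.1 h3.2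
    have e2 : 60 * 2 ^ (o + (r + 1)) = 120 * 2 ^ (o + r) := by ring
    have e3 : 2 ^ (o + (r + 1)) = 2 * 2 ^ (o + r) := by ring
    rw [e2, e3]
    exact h5

/-- **The final tables are valid.** -/
theorem NTBL (hSAD : SAD_stmt) (hDAT : DAT_stmt) (hELL : ELL_stmt) (hCKE : CKE_stmt) (hWMB : WMB_stmt)
    (hWSTT : WSTT_stmt) (hWCR : WCR_stmt) (hWTLS : WTLS_stmt) (hSIG : SIG_stmt)
    (hLPA : LPA_stmt) (hLPM : LPM_stmt) (hVBD : VBD_stmt) (hSGB : SGB_stmt) (o q : ℕ) (ho : 15 ≤ o) (hq : q ≤ 20) :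
    WTab 1801 ((60 + 3 * q) * 2 ^ o) (2 ^ o) (60 + 3 * q) (LN 2 q) (UN 2 q) := by
  have h1 := NSTATE hCKE hSGB hWSTT hWCR
    (WSTATE hSAD hDAT hELL hCKE hWMB hWSTT hWCR hWTLS hSIG hLPA hLPM hVBD) (o - 2) (by omega) 2 (by norm_num)
  rw [show o - 2 + 2 = o by omega] at h1
  exact NTAB_oct hCKE hSGB hWSTT 2 (2 ^ o) (by norm_num) (Nat.pow_le_pow_right (by norm_num) (by omega)) h1 q hq

/-- mode 0 -/
theorem SV0 (hN : ∀ o q : ℕ, 15 ≤ o → q ≤ 20 →
      WTab 1801 ((60 + 3 * q) * 2 ^ o) (2 ^ o) (60 + 3 * q) (LN 2 q) (UN 2 q))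
    (hCMB : CMB_stmt) (hCHF : CHF_stmt) (hSAD : SAD_stmt) : SV0_stmt := by
  intro o Y ho hY1 hY2
  obtain ⟨q, lam, hq, h1, h2⟩ := fin0 Y hY1 hY2
  have hw : 2 ^ 15 ≤ 2 ^ o := Nat.pow_le_pow_right (by norm_num) ho
  have hb : 0 < 46701 * Y - 60000 := by omega
  obtain ⟨h3, h4⟩ := hCHF (2 ^ o) (60 + 3 * q) Y _ _ _ _ _ _ hw (by omega) (by omega) hb (by omega) h2
  have eb : (((46701 * Y - 60000 : ℕ) : ℝ) / ((17785 * Y : ℕ) : ℝ)) = (46701 * Y - 60000) / (17785 * Y) := by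
    rw [Nat.cast_sub (by omega)]
    push_cast
    ring
  rw [eb] at h4
  have hYr : (485 : ℝ) ≤ Y := by exact_mod_cast hY1
  have hb1 : (1 : ℝ) ≤ (46701 * Y - 60000) / (17785 * Y) := by
    rw [le_div_iff₀ (by positivity)]
    linarith
  obtain ⟨C, hC⟩ := hCMB (2 ^ o) (60 + 3 * q) Y (7 * Y / 5) _ _ _ (pow_ge o) (by omega) (by omega) h3 (by omega) hb1
    (hN o q ho hq)
  refine ⟨60 + 3 * q, C, by omega, by omega, h1, hC.1, hC.2.1, hC.2.2.1, ?_⟩
  refine le_trans ?_ hC.2.2.2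
  have hV := (hSAD.2.2.2.2.1 ((60 + 3 * q) * 2 ^ o) 0).1
  have := mul_le_mul_of_nonneg_left h4 hV.le
  linarith

/-- mode 1 -/
theorem SV1 (hN : ∀ o q : ℕ, 15 ≤ o → q ≤ 20 →
      WTab 1801 ((60 + 3 * q) * 2 ^ o) (2 ^ o) (60 + 3 * q) (LN 2 q) (UN 2 q))
    (hCMB : CMB_stmt) (hCHF : CHF_stmt) (hSAD : SAD_stmt) : SV1_stmt := by
  intro o Y ho hY1 hY2
  obtain ⟨q, lam, hq, h1, h2⟩ := fin1 Y hY1 hY2
  have hw : 2 ^ 15 ≤ 2 ^ o := Nat.pow_le_pow_right (by norm_num) ho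
  obtain ⟨h3, h4⟩ := hCHF (2 ^ o) (60 + 3 * q) Y _ _ _ _ _ _ hw (by omega) (by omega) (by norm_num) (by norm_num) h2
  have eb : (((293 : ℕ) : ℝ) / ((100 : ℕ) : ℝ)) = 293 / 100 := by norm_num
  rw [eb] at h4
  obtain ⟨C, hC⟩ := hCMB (2 ^ o) (60 + 3 * q) Y (13 * Y / 10) _ _ (293 / 100) (pow_ge o) (by omega) (by omega) h3
    (by omega) (by norm_num) (hN o q ho hq)
  refine ⟨60 + 3 * q, C, by omega, by omega, h1, hC.1, hC.2.1, hC.2.2.1, ?_⟩
  refine le_trans ?_ hC.2.2.2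
  have hV := (hSAD.2.2.2.2.1 ((60 + 3 * q) * 2 ^ o) 0).1
  have := mul_le_mul_of_nonneg_left h4 hV.le
  linarith

/-- the lower bound for `V` -/
theorem VLB (hVCH : VCH_stmt) (hSAD : SAD_stmt) (hDAT : DAT_stmt) (hELL : ELL_stmt) (hCKE : CKE_stmt)
    (hVIN : VIN_stmt) : VLB_stmt := by
  have h1 := VCHN hVCH hSAD hDAT hELL hCKE 8 (le_refl _)
  have h2 : (291 : ℝ) ≤ V (Pr 7680) * (7680 : ℝ) ^ 2 := by
    have h3 : (291000 : ℝ) ≤ (dig VTN 80 : ℝ) := by exact_mod_cast V_last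
    have h4 : (dig VTN 80 : ℝ) / 1000 ≤ V (Pr 7680) * (7680 : ℝ) ^ 2 := by
      have e : 30 * 2 ^ 8 = 7680 := by norm_num
      rw [e] at h1
      exact_mod_cast h1
    refine le_trans ?_ h4
    rw [le_div_iff₀ (by norm_num)]
    linarith
  exact hVIN h2

open Classical in
/-- the final theorem from its parts -/
theorem FIN (hALL : ALL_stmt) (hALM : ALM_stmt) (hDYA : DYA_stmt) : ∃ (c : ℝ) (n₀ : ℕ), 0 < c ∧
    (∀ n : ℕ, n₀ ≤ n → c * (n : ℝ) ^ 2 / Real.log n ^ 2 ≤ ((T 6 n).card : ℝ)) ∧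
    ∀ N : ℕ, 1 ≤ N → (((Icc 1 N).filter fun n =>
      ((T 5 n).card : ℝ) < c * (n : ℝ) ^ 2 / Real.log n ^ 2).card : ℝ) ≤ 1 / c * (N : ℝ) ^ (99 / 100 : ℝ) := by
  obtain ⟨n₀, h1⟩ := hALL
  obtain ⟨N₀, h2⟩ := hALM
  obtain ⟨A, h3⟩ := hDYA _ N₀ h2
  set c : ℝ := min (1 / 10000) (1 / max A 1) with hc
  have hA : 0 < max A 1 := lt_of_lt_of_le one_pos (le_max_right _ _)
  have hc0 : 0 < c := lt_min (by norm_num) (by positivity)
  refine ⟨c, n₀, hc0, ?_, ?_⟩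
  · intro n hn
    refine le_trans ?_ (h1 n hn)
    have : c ≤ 1 / 1000 := (min_le_left _ _).trans (by norm_num)
    gcongr
  · intro N hN
    have h4 := h3 N hN
    have h5 : (((Icc 1 N).filter fun n => ((T 5 n).card : ℝ) < c * (n : ℝ) ^ 2 / Real.log n ^ 2).card : ℝ) ≤
        (((Icc 1 N).filter fun n => ((T 5 n).card : ℝ) < 1 / 10000 * (n : ℝ) ^ 2 / Real.log n ^ 2).card : ℝ) := by
      have : (Icc 1 N).filter (fun n => ((T 5 n).card : ℝ) < c * (n : ℝ) ^ 2 / Real.log n ^ 2) ⊆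
          (Icc 1 N).filter (fun n => ((T 5 n).card : ℝ) < 1 / 10000 * (n : ℝ) ^ 2 / Real.log n ^ 2) := by
        intro n hn
        rw [mem_filter] at hn ⊢
        refine ⟨hn.1, lt_of_lt_of_le hn.2 ?_⟩
        have : c ≤ 1 / 10000 := min_le_left _ _
        gcongr
      exact_mod_cast card_le_card this
    refine h5.trans (h4.trans ?_)
    have h6 : A ≤ 1 / c := by
      rw [le_div_iff₀ hc0]
      rcases le_or_gt A 0 with h7 | h7
      · nlinarith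
      · have h8 : c ≤ 1 / max A 1 := min_le_right _ _
        have h9 : A ≤ max A 1 := le_max_left _ _
        calc A * c ≤ max A 1 * (1 / max A 1) := mul_le_mul h9 h8 hc0.le hA.le
          _ = 1 := by field_simp
    have h7 : (0 : ℝ) ≤ (N : ℝ) ^ (0.99 : ℝ) := by positivity
    have e : (0.99 : ℝ) = 99 / 100 := by norm_num
    rw [e] at h7 ⊢
    exact mul_le_mul_of_nonneg_right h6 h7

end Pool.Agent.SY
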