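import Pool.Agent.helper79.SX.All
import Pool.Agent.helper13.SY.WMB
import Pool.Agent.helper97.SY.WSTP
import Pool.Agent.helper11.SY.WSTT
import Pool.Agent.helper81.SY.WCR
import Pool.Agent.helper75.SY.WTLS
import Pool.Agent.helper38.SY.SGB
import Pool.Agent.helper20.SY.ROOT
import Pool.Agent.helper49.SY.FOU
import Pool.Agent.helper70.SY.FSP
import Pool.Agent.helper85.SY.GSQ
import Pool.Agent.helper61.SY.REX
import Pool.Agent.helper87.SY.MSQ
import Pool.Agent.helper18.SY.TAU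
import Pool.Agent.helper78.SY.CMB
import Pool.Agent.helper63.SY.CHF
import Pool.Agent.helper16.SY.CNT
import Pool.Agent.helper1.SY.SQ
import Pool.Agent.helper52.SY.OM
import Pool.Agent.helper50.SY.TSB
import Pool.Agent.helper24.SY.PAR
import Pool.Agent.helper40.SY.ALL
import Pool.Agent.helper92.SY.ALM
import Pool.Agent.helper72.SY.DYA
import Pool.Agent.helper27.SY.AsmW

/-! # Project sy: the final theorem -/

set_option autoImplicit false

open Finset ArithmeticFunction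

namespace Pool.Agent.SY

open Pool.Agent.SX

theorem y_WMB : WMB_stmt := WMB all_SAD
theorem y_WSTP : WSTP_stmt := WSTP all_SAD
theorem y_WSTT : WSTT_stmt := WSTT y_WMB y_WSTP all_GOS
theorem y_WCR : WCR_stmt := WCR y_WMB
theorem y_WTLS : WTLS_stmt := WTLS y_WMB y_WSTP all_EBD
theorem y_SGB : SGB_stmt := SGB all_SIG all_LPM
theorem y_ROOT : ROOT_stmt := ROOT
theorem y_FOU : FOU_stmt := FOU
theorem y_FSP : FSP_stmt := FSP
theorem y_GSQ : GSQ_stmt := GSQ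
theorem y_REX : REX_stmt := REX y_ROOT y_FOU
theorem y_MSQ : MSQ_stmt := MSQ y_REX y_FSP y_GSQ
theorem y_TAU : TAU_stmt := TAU
theorem y_CMB : CMB_stmt := CMB all_SAD
theorem y_CHF : CHF_stmt := CHF all_SAD all_SIG all_DIR all_LPM all_PCM
theorem y_CNT : CNT_stmt := Pool.Agent.SY.CNT
theorem y_SQ : SQ_stmt := SQ
theorem y_OM : OM_stmt := OM all_SAD
theorem y_TSB : TSB_stmt := TSB y_OM all_SAD
theorem y_PAR : PAR_stmt := PAR
theorem y_NTBL : ∀ o q : ℕ, 15 ≤ o → q ≤ 20 →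
    WTab 1801 ((60 + 3 * q) * 2 ^ o) (2 ^ o) (60 + 3 * q) (LN 2 q) (UN 2 q) :=
  NTBL all_SAD all_DAT all_ELL all_CKE y_WMB y_WSTT y_WCR y_WTLS all_SIG all_LPA all_LPM all_VBD y_SGB
theorem y_SV0 : SV0_stmt := SV0 y_NTBL y_CMB y_CHF all_SAD
theorem y_SV1 : SV1_stmt := SV1 y_NTBL y_CMB y_CHF all_SAD
theorem y_VLB : VLB_stmt := VLB all_VCH all_SAD all_DAT all_ELL all_CKE all_VIN
theorem y_ALL : ALL_stmt := Pool.Agent.SY.ALL y_SV1 y_VLB y_PAR y_ROOT y_CNT y_SQ y_TSB y_TAU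
theorem y_ALM : ALM_stmt := ALM y_SV0 y_VLB y_PAR y_CNT y_SQ y_TSB y_TAU y_MSQ
theorem y_DYA : DYA_stmt := DYA

open Classical in
/-- **Main theorem of project sy.** -/
theorem MAIN : ∃ (c : ℝ) (n₀ : ℕ), 0 < c ∧
    (∀ n : ℕ, n₀ ≤ n → c * (n : ℝ) ^ 2 / Real.log n ^ 2 ≤ ((T 6 n).card : ℝ)) ∧
    ∀ N : ℕ, 1 ≤ N → (((Icc 1 N).filter fun n =>
      ((T 5 n).card : ℝ) < c * (n : ℝ) ^ 2 / Real.log n ^ 2).card : ℝ) ≤ 1 / c * (N : ℝ) ^ (99 / 100 : ℝ) :=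
  FIN y_ALL y_ALM y_DYA

end Pool.Agent.SY
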