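import Pool.Agent.helper27.SY.D
import Pool.Agent.helper79.SX.Defs
import Pool.Agent.helper85.BVP.Dual

/-!
# Project sy (MP_5628fe_nt): definitions

`Pr h`, `Bl h h'`, `g`, `V`, `ek`, `sig` are those of project sx (Pool/Agent/helper79/SX/Defs.lean);
`ex`, `sd` are in Pool/Agent/helper85/BVP/Dual.lean (`ex x = exp (2 π i x)`, `sd x = x - round x`).
-/

set_option autoImplicit false

open Finset ArithmeticFunction

namespace Pool.Agent.SY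

open Pool.Agent.SX Pool.Agent.helper85.BVP

/-! ## Sieve weights -/

/-- There are lower bound sieve weights of level `2 ^ (B / 10)` for the primes of `Pr h`, with main
term at least `V (1 - v)`. -/
def WLo (h B : ℕ) (v : ℝ) : Prop := ∃ c : Finset ℕ → ℝ, (∀ E, |c E| ≤ 1) ∧
  (∀ E, c E ≠ 0 → E ⊆ Pr h ∧ (∏ p ∈ E, p) ^ 10 ≤ 2 ^ B) ∧
  (∀ Γ ⊆ Pr h, ∑ E ∈ Γ.powerset, c E ≤ if Γ = ∅ then 1 else 0) ∧
  V (Pr h) * (1 - v) ≤ ∑ E ∈ (Pr h).powerset, c E * g E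

/-- There are upper bound sieve weights of level `2 ^ (B / 10)` for the primes of `Pr h`, with main
term at most `V (1 + v)`. -/
def WUp (h B : ℕ) (v : ℝ) : Prop := ∃ c : Finset ℕ → ℝ, (∀ E, |c E| ≤ 1) ∧
  (∀ E, c E ≠ 0 → E ⊆ Pr h ∧ (∏ p ∈ E, p) ^ 10 ≤ 2 ^ B) ∧
  (∀ Γ ⊆ Pr h, (if Γ = ∅ then 1 else 0) ≤ ∑ E ∈ Γ.powerset, c E) ∧
  ∑ E ∈ (Pr h).powerset, c E * g E ≤ V (Pr h) * (1 + v)

/-- the tables `L`, `U` with `n` entries are valid at `h`, unit `u`; the upper table is used from the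
index `a` on -/
def WTab (n h u a L U : ℕ) : Prop :=
  (∀ i, i < n → WLo h (i * u) ((dig L i : ℝ) / 2 ^ 40)) ∧
    ∀ i, a ≤ i → i < n → WUp h (i * u) ((dig U i : ℝ) / 2 ^ 40)

/-- exponential bound for the indices beyond the table -/
def WTail (h : ℕ) : Prop :=
  ∀ m, 15 ≤ m → WLo h (m * h) (600 / 3 ^ m) ∧ WUp h (m * h) (600 / 3 ^ m)

/-! ## The combined weights -/

/-- the weight `1 - log p / log y` where `y = 2 ^ (H / 10)` -/
noncomputable def wH (H p : ℕ) : ℝ := 1 - Real.log p / (H * (Real.log 2 / 10))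

/-- the block sum of the main term of the combined weights (blocks from `a + 3 j` to `min (a + 3 j + 3) Y`) -/
noncomputable def BS (w a Y B U : ℕ) : ℝ := ∑ j ∈ range ((Y - a + 2) / 3),
  (1 + (dig U (B - min (a + 3 * j + 3) Y) : ℝ) / 2 ^ 40) *
    ∑ p ∈ Bl ((a + 3 * j) * w) (min (a + 3 * j + 3) Y * w), 2 / (p : ℝ) * wH (Y * w) p

/-- `C` are combined weights: level `2 ^ (B / 10)`, sifting the primes of `Pr h`, weights for the primes of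
`Pr H`, main term at least `μ` -/
def CW (h H B : ℕ) (b μ : ℝ) (C : Finset ℕ → ℝ) : Prop := (∀ F, |C F| ≤ 1) ∧
  (∀ F, C F ≠ 0 → F ⊆ Pr H ∧ (∏ p ∈ F, p) ^ 10 ≤ 2 ^ B) ∧
  (∀ Γ ⊆ Pr H, ∑ F ∈ Γ.powerset, C F ≤ if Γ ∩ Pr h = ∅ then 1 - 1 / b * ∑ p ∈ Γ, wH H p else 0) ∧
  μ ≤ ∑ F ∈ (Pr H).powerset, C F * g F

/-! ## Counting -/

/-- the number of `k ∈ (y, y + K]` such that all primes of `F` divide `(30 k + 1) (30 k + 7)` -/
def cnt (K y : ℕ) (F : Finset ℕ) : ℕ :=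
  ((Ioc y (y + K)).filter fun k => ∀ p ∈ F, p ∣ (30 * k + 1) * (30 * k + 7)).card

/-- the remainder -/
noncomputable def rr (K y : ℕ) (F : Finset ℕ) : ℝ := (cnt K y F : ℝ) - K * g F

/-- the combined remainder -/
noncomputable def RR (C : Finset ℕ → ℝ) (P : Finset ℕ) (K y : ℕ) : ℝ := ∑ F ∈ P.powerset, C F * rr K y F

open Classical in
/-- the `k ∈ (y, y + K]` that are counted -/
noncomputable def Gk (K y h H : ℕ) (b : ℝ) : Finset ℕ := (Ioc y (y + K)).filter fun k =>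
  (∀ p ∈ Pr h, ¬ p ∣ (30 * k + 1) * (30 * k + 7)) ∧
    (∀ p ∈ Pr H, ¬ p ^ 2 ∣ 30 * k + 1 ∧ ¬ p ^ 2 ∣ 30 * k + 7) ∧
    ∑ p ∈ (Pr H).filter (fun p => p ∣ (30 * k + 1) * (30 * k + 7)), wH H p < b

/-- the number of `k ∈ (y, y + K]` with `p ^ 2 ∣ 30 k + 1` or `p ^ 2 ∣ 30 k + 7` -/
def sq (K y p : ℕ) : ℕ :=
  ((Ioc y (y + K)).filter fun k => p ^ 2 ∣ 30 * k + 1 ∨ p ^ 2 ∣ 30 * k + 7).card

/-! ## Exponential sums -/

/-- `∑_{k ≤ K} e(k α)` -/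
noncomputable def GG (K : ℕ) (α : ℝ) : ℂ := ∑ u ∈ range K, ex (((u + 1 : ℕ) : ℝ) * α)

/-- pairs `(q, a)`, `2 ≤ q ≤ D`, `1 ≤ a < q`, `a` and `q` coprime -/
def JJ (D : ℕ) : Finset (ℕ × ℕ) :=
  ((Icc 2 D) ×ˢ (range D)).filter fun j => 1 ≤ j.2 ∧ j.2 < j.1 ∧ Nat.Coprime j.2 j.1

/-- the fraction `a / q` -/
noncomputable def fr (j : ℕ × ℕ) : ℝ := (j.2 : ℝ) / j.1

/-! ## The theorem -/

open Classical in
/-- The set of the theorem: the `m` with `n ^ 3 < m`, `m + 6 < (n + 1) ^ 3` such that `m` and `m + 6`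
have at most four prime factors each and at most `r` together (with multiplicity), no prime factor
below `7` and none at most `n ^ (1 / 6)`, and there is no prime strictly between `m` and `m + 6`. -/
noncomputable def T (r n : ℕ) : Finset ℕ :=
  (Ioo (n ^ 3) ((n + 1) ^ 3)).filter fun m => m + 6 < (n + 1) ^ 3 ∧
    cardFactors m ≤ 4 ∧ cardFactors (m + 6) ≤ 4 ∧ cardFactors m + cardFactors (m + 6) ≤ r ∧
    (∀ p : ℕ, p.Prime → p ∣ m * (m + 6) → 7 ≤ p ∧ n < p ^ 6) ∧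
    ∀ q : ℕ, m < q → q < m + 6 → ¬ q.Prime

end Pool.Agent.SY
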