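import Pool.Agent.helper79.SX.Ker

/-!
# Project sy: kernel-evaluable functions of the certificate

Tables are natural numbers read in base `2 ^ 48` (`SX.dig`), sieve tables scaled by `2 ^ 40`, block data by `2 ^ 44`.
-/

set_option autoImplicit false

namespace Pool.Agent.SY

open Pool.Agent.SX

/-- the lower table `L'` follows from the tables `L`, `U` (`n` entries) by one block with upper end `a` -/
def chkLn (n E a L U L' : ℕ) : Bool := allB n fun i =>
  or (Nat.ble 1099511627776 (dig L' i))
    (and (Nat.ble (2 * a) i) (go E a (dig L' i * 17592186044416) 10 L U false 0 i 0))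

/-- the upper table `U'` follows from the tables `L`, `U` (`n` entries) by one block with upper end `a` -/
def chkUn (n E a L U U' : ℕ) : Bool := allB n fun i =>
  or (Nat.blt i a) (go E a (dig U' i * 17592186044416) 10 U L true 0 i 0)

/-- passing to half the unit: the index `i` of the new table is majorized by the index `i / 2` of the old one;
indices below `m` are not used -/
def chkH (m L L' : ℕ) : Bool := allB 1801 fun i =>
  or (Nat.blt i m) (Nat.ble (dig L (i / 2)) (dig L' i))

/-- passing to the next octave (tables with 1801 entries); indices below `m` are not used -/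
def chkCn (m L L' : ℕ) : Bool := allB 1801 fun i =>
  or (Nat.blt i m) (cond (Nat.ble i 900) (Nat.ble (dig L (2 * i)) (dig L' i))
    (Nat.ble (600 * 1099511627776) (dig L' i * 3 ^ (i / 60))))

/-- one term of the block sum of the final check: the block from `t = a + 3 j` to `min (t + 3) Y` -/
def m2t (U a Y B j : ℕ) : ℕ :=
  frc (a + 3 * j) fun t => frc (min (t + 3) Y) fun t2 =>
    cond (Nat.blt t Y)
      (cdiv (((t2 ^ 2 - t ^ 2) * 100000 + 2 * t * t2) * (Y - t) * dig U (B - t2)) (2 * t * t2 * 100000 * Y)) 0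

/-- the final check; the weight parameter is `b = bn / bd` -/
def chkF (bn bd a Y B lam L U : ℕ) : Bool :=
  and (Nat.ble (a + Y) B) (and (chkLam Y a lam) (sumR (m2t U a Y B) (fun s =>
    Nat.ble (1000 * (dig L B * bn * 10 ^ 9 * Y
        + 2 * bd * ((lam * Y + 10 ^ 9 * a + 10 ^ 5 * Y) * 2 ^ 40 + s * 10 ^ 9 * Y)))
      (995 * bn * 10 ^ 9 * Y * 2 ^ 40 + 2000 * bd * 10 ^ 9 * Y * 2 ^ 40)) ((Y - a + 2) / 3) 0 0))

/-- mode 0: level of the combined sieve, in units -/
def BB0 (Y : ℕ) : ℕ := 7 * Y / 5
/-- mode 1 -/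
def BB1 (Y : ℕ) : ℕ := 13 * Y / 10

/-- mode 0: check for `Y = lo + j`, `j < n` -/
def chkM0 (a lo n L U LM : ℕ) : Bool := allB n fun j => frc (lo + j) fun Y =>
  and (Nat.ble (950 * (Y + 1)) (10000 * a))
    (chkF (46701 * Y - 60000) (17785 * Y) a Y (BB0 Y) (dig LM j) L U)

/-- mode 1: check for `Y = lo + j`, `j < n` -/
def chkM1 (a lo n L U LM : ℕ) : Bool := allB n fun j => frc (lo + j) fun Y =>
  and (Nat.ble (1091 * (Y + 1)) (10000 * a))
    (chkF 293 100 a Y (BB1 Y) (dig LM j) L U)

end Pool.Agent.SY
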