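import Pool.Agent.helper27.SY.Defs
import Pool.Agent.helper79.SX.Spec

/-!
# Project sy (MP_5628fe_nt): almost primes `m`, `m + 6` between consecutive cubes, II

Final theorem, `T r n` as in Defs.lean: there is `c > 0` such that `|T 6 n| ≥ c n ^ 2 / log² n` for all large `n`, and
`|T 5 n| ≥ c n ^ 2 / log² n` for all but `O(N ^ 0.99)` of the `n ≤ N`.

Method: the block sieve of project sx written with sieve weights (so that the remainder of the whole weighted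
sieve is one sum over moduli), level `2 ^ (B / 10)`; for almost all `n` the remainder is bounded in mean square
over short windows by the dual large sieve. The numerical certificate (files D, T0, T1, T2, F) is complete and
is not needed for the modules.

Notation: `δ = log 2 / 10`, `γ k := (30 k + 1) (30 k + 7)`, `m = 30 k + 1`, `m + 6 = 30 k + 7`. `Γ k` denotes the set
of the primes of the finite set in question (`Pr H`) that divide `γ k`.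

Rules: file `Pool/Agent/<seat>/SY/XX.lean`: `import Pool.Agent.helper27.SY.Spec`, `namespace Pool.Agent.SY`,
`open Finset ArithmeticFunction Pool.Agent.SX Pool.Agent.helper85.BVP`, `theorem XX (h1 : AA_stmt) ... : XX_stmt`
(other statements of this file or of Pool/Agent/helper79/SX/Spec.lean as hypotheses, no circles; all statements
of the latter are proved there), auxiliary lemmas prefixed `XX_`.
-/

set_option autoImplicit false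

open Finset ArithmeticFunction

namespace Pool.Agent.SY

open Pool.Agent.SX Pool.Agent.helper85.BVP

/-! ## Part A: weights -/

/-- **WMB** (short, medium). From SAD (`V (Pr h) > 0`). Monotone: the same `c` (`2 ^ B ≤ 2 ^ B'`). `WLo h B 1`: `c = 0`.
`Pr 28 = ∅` (`7 ^ 10 > 2 ^ 28`), `V ∅ = 1`, `g ∅ = 1`: `c E = 1` for `E = ∅` and `0` otherwise. `Pr 30 = {7}`
(`7 ^ 10 < 2 ^ 29`, `11 ^ 10 > 2 ^ 30`), `V {7} = 5 / 7`: `c ∅ = 1`, `c {7} = -1`, otherwise `0`; then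
`∑_{E ⊆ Γ} c E = [Γ = ∅]` and the main term is `1 - 2 / 7`. -/
def WMB_stmt : Prop :=
  (∀ (h B B' : ℕ) (v v' : ℝ), B ≤ B' → v ≤ v' → WLo h B v → WLo h B' v') ∧
  (∀ (h B B' : ℕ) (v v' : ℝ), B ≤ B' → v ≤ v' → WUp h B v → WUp h B' v') ∧
  (∀ h B : ℕ, WLo h B 1) ∧
  (∀ (B : ℕ) (v : ℝ), 0 ≤ v → WLo 28 B v ∧ WUp 28 B v) ∧
  ∀ (B : ℕ) (v : ℝ), 29 ≤ B → 0 ≤ v → WLo 30 B v ∧ WUp 30 B v

/-- **WSTP** (medium, long). One block. `Q = Bl h h'`, `Pr h' = Pr h ∪ Q` (disjoint), `V (Pr h') = V (Pr h) V Q`. Choose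
the weights `c_k`, `k ≤ K`, from the hypothesis. For `F ⊆ Pr h'` put `E = F ∩ Pr h`, `S = F ∩ Q`, `k = |S|` and
`c' F = (-1) ^ k c_k E` if `k ≤ K`; `c' F = 0` if `k > K` or `¬ F ⊆ Pr h'`. Level: `q ^ 10 < 2 ^ h'` for `q ∈ S`, so
`(∏ F) ^ 10 = (∏ E) ^ 10 (∏ S) ^ 10 ≤ 2 ^ (B - k h') 2 ^ (k h') = 2 ^ B` (`k h' ≤ B`). For `Γ ⊆ Pr h'`, `Γ₀ = Γ ∩ Pr h`,
`Γ₁ = Γ ∩ Q`, the subsets of `Γ` are the `E ∪ S` with `E ⊆ Γ₀`, `S ⊆ Γ₁`: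
`∑_{F ⊆ Γ} c' F = ∑_{k ≤ K} (-1) ^ k C(|Γ₁|, k) ∑_{E ⊆ Γ₀} c_k E`. `K` odd: the inner sum is `≤ [Γ₀ = ∅]` for even `k` and
`≥ [Γ₀ = ∅]` for odd `k`, so the total is `≤ [Γ₀ = ∅] ∑_{k ≤ K} (-1) ^ k C(|Γ₁|, k) ≤ [Γ₀ = ∅] [Γ₁ = ∅]` (first half of
`Lib.BrunHooley.bonferroni Γ₁ (fun _ => 1)`). Main term: `∑_{F ⊆ Pr h'} c' F g F = ∑_{k ≤ K} (-1) ^ k ek Q k M_k`,
`M_k = ∑_{E ⊆ Pr h} c_k E g E`, `M_k ≥ V (Pr h) (1 - v k)` for even `k`, `≤ V (Pr h) (1 + v k)` for odd `k`, so it is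
`≥ V (Pr h) (∑ (-1) ^ k ek Q k - ∑ ek Q k v k) ≥ V (Pr h) (V Q - ek Q (K + 1) - ∑ ek Q k v k)` (second half of
`bonferroni Q (2 / p)`). `K` even: all inequalities reversed. No sign of `v` is needed. The same computation is
in the proof of STP_stmt (Pool/Agent/*/SX/STP.lean). -/
def WSTP_stmt : Prop := ∀ (h h' B K : ℕ) (v : ℕ → ℝ), 28 ≤ h → h ≤ h' → K * h' ≤ B →
  (Odd K → (∀ k ≤ K, (Even k → WLo h (B - k * h') (v k)) ∧ (Odd k → WUp h (B - k * h') (v k))) →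
    WLo h' B ((∑ k ∈ range (K + 1), ek (Bl h h') k * v k + ek (Bl h h') (K + 1)) / V (Bl h h'))) ∧
  (Even K → (∀ k ≤ K, (Even k → WUp h (B - k * h') (v k)) ∧ (Odd k → WLo h (B - k * h') (v k))) →
    WUp h' B ((∑ k ∈ range (K + 1), ek (Bl h h') k * v k + ek (Bl h h') (K + 1)) / V (Bl h h')))

/-- **WSTT** (medium). From WMB, WSTP, GOS: the proof of STT_stmt in Pool/Agent/*/SX/STT.lean with `Lo`, `Up` replaced by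
`WLo`, `WUp`, `MON` by `WMB`, `STP` by `WSTP` and `901` by `n`. -/
def WSTT_stmt : Prop := ∀ n h h' u a0 a L U L' U' E : ℕ, 28 ≤ h → h ≤ h' → h' = a * u → 1 ≤ a → a0 ≤ a →
  EOK h h' E → WTab n h u a0 L U → chkLn n E a L U L' = true → chkUn n E a L U U' = true →
  WTab n h' u a L' U'

/-- **WCR** (medium). From WMB. (1) `(i / 2) (2 w) ≤ i w`, `i / 2 < 901`, for the upper table `30 ≤ i / 2`.
(2) `i ≤ 900`: the old tables at the index `2 i` (`(2 i) w = i (2 w)`; for the upper table `120 ≤ 2 i`);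
`900 < i`: `m = i / 60 ≥ 15`, `m (120 w) ≤ i (2 w)`, and `600 / 3 ^ m ≤ dig L' i / 2 ^ 40` by the check.
(3) the same with the constants of `chkC` (`allB 901`, old index `2 i` for `i ≤ 450`, `m = i / 30`). See the proof of
CRS_stmt (Pool/Agent/*/SX/CRS.lean). -/
def WCR_stmt : Prop :=
  (∀ w L U L' U' : ℕ, WTab 901 (60 * w) (2 * w) 30 L U → chkH 0 L L' = true → chkH 60 U U' = true →
    WTab 1801 (60 * w) w 60 L' U') ∧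
  (∀ w L U L' U' : ℕ, 1 ≤ w → WTab 1801 (120 * w) w 120 L U → WTail (120 * w) → chkCn 0 L L' = true →
    chkCn 60 U U' = true → WTab 1801 (120 * w) (2 * w) 60 L' U') ∧
  ∀ u L U L' U' : ℕ, 1 ≤ u → WTab 901 (60 * u) u 60 L U → WTail (60 * u) → chkC 0 L L' = true →
    chkC 30 U U' = true → WTab 901 (60 * u) (2 * u) 30 L' U'

/-- **WTLS** (medium, long). From WMB, WSTP, EBD. Let `m ≥ 15`, `h' = 2 h`, `B = m h'`. Put `K = m - 1` or `m - 2`, odd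
for WLo and even for WUp. For `k ≤ K` let `j = 2 (m - k) ≥ 2`: `B - k h' = j h`, and both `WLo h (j h) (600 / 3 ^ j)` and
`WUp h (j h) (600 / 3 ^ j)` hold: by WTail if `15 ≤ j`, by the hypothesis if `j < 15`. So with `v k = 600 / 9 ^ (m - k)`,
`ek ≤ (31/20) ^ k / k!`, `1 / V ≤ 5` the value of WSTP is
`≤ 5 (600 / 9 ^ m ∑_{k ≤ K} (9 * 31/20) ^ k / k! + (31/20) ^ (K + 1) / (K + 1)!) ≤ 600 / 3 ^ m`: the numerical part is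
as in the proof of TLS_stmt (Pool/Agent/*/SX/TLS.lean; it is the same inequality). -/
def WTLS_stmt : Prop := ∀ h : ℕ, 28 ≤ h → WTail h →
  (∀ j, 2 ≤ j → j < 15 → WLo h (j * h) (600 / 3 ^ j) ∧ WUp h (j * h) (600 / 3 ^ j)) →
  sig h (2 * h) ≤ 31 / 20 → 1 / 5 ≤ V (Bl h (2 * h)) → WTail (2 * h)

/-- **SGB** (short). From SIG, LPM: `sig ≤ 2 (log ((21 + q) / (20 + q)) + 1.09 * 14.4269505 / ((60 + 3 q) w))`, the last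
term is `≤ 0.00004` as `(60 + 3 q) w ≥ 491520`; `log ((21 + q) / (20 + q)) ≤ LGn q / 10 ^ 9` for each `q < 20` by the
exponential series (`Real.sum_le_exp_of_nonneg`, 7 terms), and `ln_eq` (file D). -/
def SGB_stmt : Prop := ∀ w q : ℕ, 2 ^ 13 ≤ w → q < 20 →
  sig ((60 + 3 * q) * w) ((63 + 3 * q) * w) ≤ (ln q : ℝ) / 2 ^ 44

/-! ## Part B: the remainder -/

/-- **ROOT** (medium). Induction on `F`; `F = ∅`: `{0}`. For a prime `p ≥ 7`: `p ∣ γ k` iff `k % p` is one of two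
distinct residues (the inverse of `30` times `-1`, `-7`; e.g. the solutions in `ZMod p`, `p ∤ 30`, `p ∤ 6`). For
`insert p F`, `d = ∏ F` coprime to `p`: the `x < d p` with `x % d ∈ R` and `x % p` one of the two: `2 ^ (|F| + 1)` of them by
the Chinese remainder theorem. The second part: each class of `k % d` has between `K / d - 1` and `K / d + 1`
elements in `(y, y + K]`, and `g F = 2 ^ |F| / d`. -/
def ROOT_stmt : Prop :=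
  (∀ F : Finset ℕ, (∀ p ∈ F, p.Prime ∧ 7 ≤ p) → ∃ R : Finset ℕ, R ⊆ range (∏ p ∈ F, p) ∧
    R.card = 2 ^ F.card ∧
    ∀ k : ℕ, (∀ p ∈ F, p ∣ (30 * k + 1) * (30 * k + 7)) ↔ k % (∏ p ∈ F, p) ∈ R) ∧
  ∀ (F : Finset ℕ) (K y : ℕ), (∀ p ∈ F, p.Prime ∧ 7 ≤ p) → |rr K y F| ≤ 2 ^ F.card

/-- **FOU** (medium). `[k ≡ ρ mod d] = (1 / d) ∑_{h < d} e(h (k - ρ) / d)` for `ρ < d`; sum over `ρ ∈ R` and
`y < k ≤ y + K`; the term `h = 0` is `K |R| / d`; `∑_{y < k ≤ y + K} e(k α) = e(y α) GG K α`. -/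
def FOU_stmt : Prop := ∀ (d : ℕ) (R : Finset ℕ) (K y : ℕ), 1 ≤ d → R ⊆ range d →
  ((((Ioc y (y + K)).filter fun k => k % d ∈ R).card : ℕ) : ℂ) - (K : ℂ) * R.card / d =
    1 / d * ∑ h ∈ Ico 1 d, (∑ r ∈ R, ex (-((h : ℝ) * r / d))) * GG K ((h : ℝ) / d) * ex ((y : ℝ) * ((h : ℝ) / d))

/-- **FSP** (short, medium). Two different elements of `JJ D` give different fractions in `(0, 1)`; for an integer `r`
the number `a / q - a' / q' - r` is nonzero (it would be an integer between `-1` and `1`, so the fractions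
would be equal) with denominator `q q' ≤ D ^ 2`. -/
def FSP_stmt : Prop := ∀ D : ℕ, ∀ j ∈ JJ D, ∀ k ∈ JJ D, j ≠ k → 1 / (D : ℝ) ^ 2 ≤ |sd (fr j - fr k)|

/-- **GSQ** (medium). `‖GG K α‖ ≤ K` and `≤ 1 / (2 |sd α|)` (`norm_geom_le`; the factor `e(α)` has norm one), so
`‖GG K (a / q)‖ ^ 2 ≤ K / (2 |sd (a / q)|)`, and `|sd (a / q)| = min (a, q - a) / q`. Hence the sum is
`≤ K q ∑_{1 ≤ a ≤ q / 2} 1 / a ≤ K q (1 + log q)`. -/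
def GSQ_stmt : Prop := ∀ K q : ℕ, 2 ≤ q →
  ∑ a ∈ Ico 1 q, ‖GG K ((a : ℝ) / q)‖ ^ 2 ≤ (K : ℝ) * q * (1 + Real.log q)

/-- **REX** (long). From ROOT, FOU. For `F ⊆ P` with `C F ≠ 0` let `d = ∏ F ≤ D`, `R_F` from ROOT, `κ_F h = ∑_{r ∈ R_F} e(-h r / d)`,
`|κ_F h| ≤ 2 ^ |F| ≤ t`. By ROOT and FOU `rr K y F = (1 / d) ∑_{1 ≤ h < d} κ_F(h) GG K (h / d) e(y h / d)` (`g F = 2 ^ |F| / d`).
Every `(F, h)` corresponds to exactly one `(F, j)` with `j = (q, a) ∈ JJ D`, `q ∣ d`, `h = a d / q` (reduce the fraction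
`h / d`). So `b j = GG K (a / q) ∑_{F ⊆ P, C F ≠ 0, q ∣ ∏ F} C F κ_F(a (∏ F) / q) / ∏ F`. As `F ↦ ∏ F` is injective on sets of
primes and `∏ F = q m`, `m ≤ D / q`, `‖b j‖ ≤ ‖GG K (a / q)‖ t ∑_{m ≤ D} 1 / (q m) ≤ ‖GG K (a / q)‖ t (1 + log D) / q`. -/
def REX_stmt : Prop := ∀ (C : Finset ℕ → ℝ) (P : Finset ℕ) (D K : ℕ) (t : ℝ), 1 ≤ D → 0 ≤ t →
  (∀ p ∈ P, p.Prime ∧ 7 ≤ p) → (∀ F, |C F| ≤ 1) → (∀ F, C F ≠ 0 → F ⊆ P ∧ ∏ p ∈ F, p ≤ D) →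
  (∀ F, C F ≠ 0 → (2 : ℝ) ^ F.card ≤ t) →
  ∃ b : ℕ × ℕ → ℂ, (∀ j ∈ JJ D, ‖b j‖ ≤ t * (1 + Real.log D) / j.1 * ‖GG K (fr j)‖) ∧
    ∀ y : ℕ, ((RR C P K y : ℝ) : ℂ) = ∑ j ∈ JJ D, b j * ex ((y : ℝ) * fr j)

/-- **MSQ** (medium). From REX, FSP, GSQ. The dual large sieve `Pool.Agent.helper85.BVP.dual` with `J = JJ D`,
`α = fr`, spacing `1 / D ^ 2` (`1 / δ ^ 2 = D ^ 4 ≤ L ^ 2`), `M = 0`: `L ∑_{y < 2 L} |RR y| ^ 2 ≤ 5 L ^ 2 ∑_j ‖b j‖ ^ 2`, and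
`∑_j ‖b j‖ ^ 2 ≤ t ^ 2 (1 + log D) ^ 2 ∑_{q ≤ D} q ^ (-2) K q (1 + log q) ≤ K t ^ 2 (1 + log D) ^ 4`
(`∑_{q ≤ D} 1 / q ≤ 1 + log D`). -/
def MSQ_stmt : Prop := ∀ (C : Finset ℕ → ℝ) (P : Finset ℕ) (D K L : ℕ) (t : ℝ), 1 ≤ D → 0 ≤ t → D ^ 2 ≤ L →
  (∀ p ∈ P, p.Prime ∧ 7 ≤ p) → (∀ F, |C F| ≤ 1) → (∀ F, C F ≠ 0 → F ⊆ P ∧ ∏ p ∈ F, p ≤ D) →
  (∀ F, C F ≠ 0 → (2 : ℝ) ^ F.card ≤ t) →
  ∑ y ∈ range (2 * L), RR C P K y ^ 2 ≤ 5 * L * K * t ^ 2 * (1 + Real.log D) ^ 4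

/-- **TAU** (short). `2 ^ |F| = ∏_{p ∈ F} 2` and `2 ≤ p ^ ε` if `p ≥ N := ⌈2 ^ (1 / ε)⌉`; the at most `N` primes below `N` give
a factor `≤ A = 2 ^ N`. -/
def TAU_stmt : Prop := ∀ ε : ℝ, 0 < ε → ∃ A : ℝ, 1 ≤ A ∧ ∀ F : Finset ℕ, (∀ p ∈ F, p.Prime) →
  (2 : ℝ) ^ F.card ≤ A * (∏ p ∈ F, (p : ℝ)) ^ ε

/-! ## Part C: the weighted sieve -/

/-- **CMB** (long). From SAD. Let `n = (Y - a + 2) / 3`, `t_j = a + 3 j`, `s_j = min (t_j + 3) Y` for `j < n`; `t_j < Y` iff `j < n`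
(and `s_j = t_(j+1)` unless `j = n - 1`, `s_(n-1) = Y`), so the blocks `Bl (t_j w) (s_j w)` are disjoint with union
`Bl (a w) (Y w)`. Take lower weights `c` at the index `B` (table L) and, for every `j < n`, upper weights `c_j` at the
index `B - s_j` (`≥ a` as `s_j ≤ Y`). Put `C F = c F` if `F ⊆ Pr (a w)`; `C F = -(1 / b) wH (Y w) p * c_j E` if `F = E ∪ {p}`,
`E = F ∩ Pr (a w)`, `p ∈ Bl (t_j w) (s_j w)`; otherwise `C F = 0`. `0 ≤ wH (Y w) p ≤ 1` for `p ∈ Pr (Y w)` (`p ^ 10 < 2 ^ (Y w)`), so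
`|C F| ≤ 1`. Level: `(∏ E) ^ 10 p ^ 10 ≤ 2 ^ ((B - s_j) w) 2 ^ (s_j w) = 2 ^ (B w)`. For `Γ ⊆ Pr (Y w)`, `Γ₀ = Γ ∩ Pr (a w)`:
`∑_{F ⊆ Γ} C F = ∑_{E ⊆ Γ₀} c E - (1 / b) ∑_{p ∈ Γ \ Γ₀} wH p ∑_{E ⊆ Γ₀} c_(j(p)) E ≤ [Γ₀ = ∅] (1 - (1 / b) ∑_{p ∈ Γ \ Γ₀} wH p)`
and `Γ \ Γ₀ = Γ` if `Γ₀ = ∅`. Main term: `∑ C F g F = ∑ c g - (1 / b) ∑_j ∑_{p ∈ block j} wH p (2 / p) ∑_E c_j E g E`
`≥ V (1 - dig L B / 2 ^ 40) - (1 / b) ∑_j V (1 + dig U (B - s_j) / 2 ^ 40) ∑_{p ∈ block j} (2 / p) wH p`, `V = V (Pr (a w))`. -/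
def CMB_stmt : Prop := ∀ (w a Y B L U : ℕ) (b : ℝ), 1 ≤ w → 28 ≤ a → a < Y → a + Y ≤ B → B < 1801 → 1 ≤ b →
  WTab 1801 (a * w) w a L U → ∃ C : Finset ℕ → ℝ,
    CW (a * w) (Y * w) (B * w) b
      (V (Pr (a * w)) * (1 - (dig L B : ℝ) / 2 ^ 40 - 1 / b * BS w a Y B U)) C

/-- **CHF** (medium, long). From SAD, SIG, DIR, LPM, PCM (all proved in project sx; use LP 1 1.09). Notation of CMB. Meaning of
`chkF`: `a + Y ≤ B`, `log (Y / a) ≤ lam / 10 ^ 9` (PCM for `chkLam`), and with `s = ∑_{j < n} m2t U a Y B j` (PCM for `sumR`)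
the inequality of naturals. `frc n f = f n`; `cdiv x y ≥ x / y`; so `m2t j / 2 ^ 40 ≥ (x_j + 0.00001) (1 - t_j / Y) v_j`,
`x_j = (s_j ^ 2 - t_j ^ 2) / (2 t_j s_j) ≥ log (s_j / t_j)`, `v_j = dig U (B - s_j) / 2 ^ 40`. Now
`BS = 2 ∑_{p ∈ Bl (a w) (Y w)} wH p / p + ∑_j v_j ∑_{block j} (2 / p) wH p`. The first sum is at most
`log (Y / a) - 1 + a / Y + 1.09 * 14.4269505 / (a w)` (DIR), the last term is `≤ 0.0001`; in block `j`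
`wH p ≤ 1 - t_j / Y` (`log p ≥ t_j w δ`) and `sig ≤ 2 (log (s_j / t_j) + 1.09 * 14.4269505 / (t_j w))`, the last term is
`≤ 0.00001` as `t_j w ≥ 60 * 2 ^ 15`. So `dig L B / 2 ^ 40 + (bd / bn) BS ≤ dig L B / 2 ^ 40 + (2 bd / bn) (lam / 10 ^ 9 - 1
+ a / Y + 0.0001 + s / 2 ^ 40) ≤ 0.995`: the inequality of `chkF` divided by `1000 bn 10 ^ 9 Y 2 ^ 40`. -/
def CHF_stmt : Prop := ∀ w a Y B lam L U bn bd : ℕ, 2 ^ 15 ≤ w → 60 ≤ a → a < Y → 0 < bn → 0 < bd →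
  chkF bn bd a Y B lam L U = true →
  a + Y ≤ B ∧ 1 / 200 ≤ 1 - (dig L B : ℝ) / 2 ^ 40 - 1 / ((bn : ℝ) / bd) * BS w a Y B U

/-- **CNT** (medium). Sum the inequality for `Γ k` over `y < k ≤ y + K`. Left side:
`∑_k ∑_{F ⊆ Γ k} C F = ∑_{F ⊆ Pr H} C F cnt K y F = K ∑ C F g F + RR C (Pr H) K y`. Right side, for each `k`: if a prime of `Pr h`
divides `γ k` the term is `0`; otherwise it is `1 - (1 / b) ∑_{p ∈ Γ k} wH H p ≤ 1` (`wH ≥ 0` on `Pr H`). If `k ∉ Gk` then either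
`p ^ 2` divides `m` or `m + 6` for some `p ∈ Pr H`, not in `Pr h`, so `p ∈ Bl h H` and `k` is counted in `∑ sq`, or the sum is
`≥ b` and the term is `≤ 0`. -/
def CNT_stmt : Prop := ∀ (C : Finset ℕ → ℝ) (K y h H B : ℕ) (b μ : ℝ), h ≤ H → 1 ≤ H → 0 < b → CW h H B b μ C →
  (K : ℝ) * μ + RR C (Pr H) K y ≤ ((Gk K y h H b).card : ℝ) + ∑ p ∈ Bl h H, (sq K y p : ℝ)

/-- **SQ** (medium). For a prime `p ≥ 7`, `p ^ 2 ∣ 30 k + 1` is one residue class modulo `p ^ 2`, so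
`sq K y p ≤ 2 (K / p ^ 2 + 1)`. `p ∈ Bl h H` has `p ^ 10 ≥ 2 ^ h ≥ (2 ^ (h / 10)) ^ 10`, so `p ≥ N = 2 ^ (h / 10)`, and
`∑_{n ≥ N} 1 / n ^ 2 ≤ 2 / N`; the number of `p ∈ Pr H` is at most `2 ^ (H / 10 + 1)` (SAD or the definition). -/
def SQ_stmt : Prop := ∀ K y h H : ℕ, 28 ≤ h → h ≤ H →
  ∑ p ∈ Bl h H, (sq K y p : ℝ) ≤ 4 * K / 2 ^ (h / 10) + 4 * 2 ^ (H / 10)

/-- **OM** (medium). From SAD. `l = H δ > 0`. For `x = m` or `m + 6`: `Ω(x) - log x / l = ∑_p v_p(x) (1 - log p / l)`; the terms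
with `p ∉ Pr H` are `≤ 0` (all prime factors of `x` are `≥ 7`, so `p ^ 10 ≥ 2 ^ H`, `log p ≥ l`), for `p ∈ Pr H` the exponent is `1`
and `wH H p ≥ 0`. `m` and `m + 6` have no common prime factor, so the two sums add up to the sum in `Gk`, `< b`.
(`m % 30 = 1`, `(m + 6) % 30 = 7`; `cardFactors_eq_sum_factorization`.) See OMG_stmt (Pool/Agent/*/SX/OMG.lean). -/
def OM_stmt : Prop := ∀ (K y h H k : ℕ) (b : ℝ), 1 ≤ H → k ∈ Gk K y h H b →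
  (cardFactors (30 * k + 1) : ℝ) + cardFactors (30 * k + 7) <
    b + (Real.log (30 * k + 1) + Real.log (30 * k + 7)) / (H * (Real.log 2 / 10)) ∧
  (cardFactors (30 * k + 1) : ℝ) < b + Real.log (30 * k + 1) / (H * (Real.log 2 / 10)) ∧
  (cardFactors (30 * k + 7) : ℝ) < b + Real.log (30 * k + 7) / (H * (Real.log 2 / 10))

/-- **TSB** (medium). From OM, SAD. The map `k ↦ 30 k + 1` is injective from `Gk` into `T r n`: `n ^ 3 < m`, `m + 6 < (n + 1) ^ 3`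
for `y < k ≤ y + K`; `Ω(m) + Ω(m + 6) < b + 6 log (n + 1) / (H δ) ≤ r + 1`; `Ω(m), Ω(m + 6) < b + 3 log (n + 1) / (H δ) ≤ 5`. The
numbers `m + 1, …, m + 5` are `2, …, 6` modulo `30`, so divisible by `2`, `3` or `5` and larger than `5`. A prime factor
`p` of `m (m + 6)` is `≥ 7`, not in `Pr h`, so `2 ^ h ≤ p ^ 10` and `n ^ 10 < 2 ^ (6 h) ≤ (p ^ 6) ^ 10`. -/
def TSB_stmt : Prop := ∀ (n r K y h H : ℕ) (b : ℝ), 2 ≤ n → 1 ≤ H → n ^ 3 < 30 * (y + 1) + 1 →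
  30 * (y + K) + 7 < (n + 1) ^ 3 → n ^ 10 < 2 ^ (6 * h) →
  b + 6 * Real.log ((n : ℝ) + 1) / (H * (Real.log 2 / 10)) ≤ r + 1 →
  b + 3 * Real.log ((n : ℝ) + 1) / (H * (Real.log 2 / 10)) ≤ 5 →
  (Gk K y h H b).card ≤ (T r n).card

/-- **PAR** (short). With `N = ⌊x⌋` let `o` be the largest with `485 * 2 ^ o ≤ N` and `Y = N / 2 ^ o`. -/
def PAR_stmt : Prop := ∀ x : ℝ, 485 * 2 ^ 15 ≤ x → ∃ o Y : ℕ, 15 ≤ o ∧ 485 ≤ Y ∧ Y < 970 ∧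
  (Y : ℝ) * 2 ^ o ≤ x ∧ x < ((Y : ℝ) + 1) * 2 ^ o

/-! ## Part D: conclusion -/

/-- The combined weights of mode 0. Proved from Part A and CMB, CHF by the certificate (assembly). -/
def SV0_stmt : Prop := ∀ o Y : ℕ, 15 ≤ o → 485 ≤ Y → Y < 970 → ∃ (a : ℕ) (C : Finset ℕ → ℝ),
  60 ≤ a ∧ a ≤ 120 ∧ 950 * (Y + 1) ≤ 10000 * a ∧
  CW (a * 2 ^ o) (Y * 2 ^ o) (7 * Y / 5 * 2 ^ o) ((46701 * Y - 60000) / (17785 * Y) : ℝ)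
    (V (Pr (a * 2 ^ o)) / 200) C

/-- The combined weights of mode 1. -/
def SV1_stmt : Prop := ∀ o Y : ℕ, 15 ≤ o → 485 ≤ Y → Y < 970 → ∃ (a : ℕ) (C : Finset ℕ → ℝ),
  60 ≤ a ∧ a ≤ 120 ∧ 1091 * (Y + 1) ≤ 10000 * a ∧
  CW (a * 2 ^ o) (Y * 2 ^ o) (13 * Y / 10 * 2 ^ o) (293 / 100 : ℝ) (V (Pr (a * 2 ^ o)) / 200) C

/-- `V (Pr h) ≥ 280 / h ^ 2` for `h ≥ 7680` (VIN_stmt of project sx, whose hypothesis is proved there). -/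
def VLB_stmt : Prop := ∀ h : ℕ, 7680 ≤ h → 280 ≤ V (Pr h) * (h : ℝ) ^ 2

/-- **ALL** (medium, long). From SV1, VLB, PAR, ROOT, CNT, SQ, TSB, TAU. Let `n` be large, `x = 1.53 log n / δ`, `o`, `Y` from PAR, `w = 2 ^ o`,
`H = Y w`, `h = a w`, so `485/486 * 1.53 log n ≤ H δ ≤ 1.53 log n`. Take `y = n ^ 3 / 30`, `K = n ^ 2 / 11` (natural division): then
`n ^ 3 < 30 (y + 1)` and `30 (y + K) + 7 ≤ n ^ 3 + 30 n ^ 2 / 11 + 7 < (n + 1) ^ 3`. TSB with `r = 6`, `b = 2.93`: `10000 a ≥ 1091 (Y + 1)` gives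
`60 h δ ≥ 60 * 0.1091 * 1.53 log n ≥ 10.01 log n`, so `n ^ 10 < 2 ^ (6 h)` (`2 ^ x = e ^ (10 x δ)`);
`2.93 + 6 log (n + 1) / (H δ) ≤ 2.93 + 3.93 (1 + 0.001) ≤ 7`, `2.93 + 1.97 ≤ 5`. CNT: `|T 6 n| ≥ |Gk| ≥ K V / 200 - |RR| - ∑ sq`.
`C F ≠ 0` implies `∏ F ≤ e ^ (1.3 H δ) ≤ n ^ 1.989` and, by TAU with `ε = 0.001`, `2 ^ |F| ≤ A n ^ 0.002`; as `F ↦ ∏ F` is injective and
`|rr| ≤ 2 ^ |F|` (ROOT), `|RR| ≤ n ^ 1.989 A n ^ 0.002`. SQ: `2 ^ (h / 10) ≥ e ^ (h δ) / 2 ≥ n ^ 0.16 / 2`, `2 ^ (H / 10) ≤ n ^ 1.53`, so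
`∑ sq ≤ 8 K n ^ (-0.16) + 4 n ^ 1.53`. `h ≤ 120 w ≤ 120 x / 485 ≤ 5.5 log n`, so `V ≥ 280 / h ^ 2 ≥ 9 / log² n` and
`K V / 200 ≥ 0.0037 n ^ 2 / log² n`. So `|T 6 n| ≥ 0.001 n ^ 2 / log² n` for large `n`. -/
def ALL_stmt : Prop := ∃ n₀ : ℕ, ∀ n : ℕ, n₀ ≤ n →
  1 / 1000 * (n : ℝ) ^ 2 / Real.log n ^ 2 ≤ ((T 6 n).card : ℝ)

open Classical in
/-- **ALM** (long). From SV0, VLB, PAR, CNT, SQ, TSB, TAU, MSQ. Let `N` be large, `x = 1.7785 log N / δ`, `o`, `Y` from PAR, `w = 2 ^ o`, `H = Y w`,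
`h = a w`, `b` as in SV0, `K = N ^ 2 / 11`, and for `N ≤ n < 2 N` let `y` run through `n ^ 3 / 30 ≤ y < n ^ 3 / 30 + N ^ 2 / 300` (natural division).
Then `n ^ 3 < 30 (y + 1)` and `30 (y + K) + 7 ≤ n ^ 3 + N ^ 2 / 10 + 30 N ^ 2 / 11 + 7 < (n + 1) ^ 3`. TSB with `r = 5`: `10000 a ≥ 950 (Y + 1)`
gives `60 h δ ≥ 60 * 0.095 * 1.7785 log N ≥ 10.13 log N`, so `n ^ 10 ≤ (2 N) ^ 10 < 2 ^ (6 h)`; `n + 1 ≤ 2 N` and
`H δ ≥ (Y / (Y + 1)) 1.7785 log N`, so `b + 6 log (n + 1) / (H δ) ≤ b + 60000 (Y + 1) / (17785 Y) (1 + log 2 / log N)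
= 106701 / 17785 + o(1) = 5.99949… + o(1) ≤ 6`; `b + 3 log (n + 1) / (H δ) ≤ 5`. `C F ≠ 0` implies `∏ F ≤ e ^ (1.4 H δ) ≤ N ^ 2.49 / 2`,
let `D = ⌊N ^ 2.49⌋`, `2 ^ |F| ≤ t = A N ^ 0.00125` (TAU, `ε = 0.0005`), `L = ⌈N ^ 4.98⌉`. MSQ with `P = Pr H`:
`∑_{y < 2 L} RR y ^ 2 ≤ 5 L K t ^ 2 (1 + log D) ^ 4 ≤ A ^ 2 N ^ (4.98 + 2 + 0.0025) (3 log N) ^ 4`. As in ALL `h ≤ 6.4 log N`, `V ≥ 6.8 / log² N`,
`K V / 200 ≥ 0.0028 N ^ 2 / log² N`, `∑ sq ≤ 8 K N ^ (-0.16) + 4 N ^ 1.7785`. If `|T 5 n| < 0.0001 n ^ 2 / log² n ≤ 0.0004 N ^ 2 / log² N`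
then CNT and TSB give `RR y ≤ -0.001 N ^ 2 / log² N` for all these `y`. The `y` for different `n` are different
(`n ^ 3 / 30 + N ^ 2 / 300 ≤ (n + 1) ^ 3 / 30`) and `< N ^ 3 ≤ 2 L`; there are `N ^ 2 / 300` for each `n`. So the number of such `n` is
`≤ 301 N ^ (-2) (1000 log² N / N ^ 2) ^ 2 A ^ 2 N ^ 6.9825 (3 log N) ^ 4 ≤ N ^ 0.985` for large `N`. -/
def ALM_stmt : Prop := ∃ N₀ : ℕ, ∀ N : ℕ, N₀ ≤ N →
  (((Ico N (2 * N)).filter fun n =>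
    ((T 5 n).card : ℝ) < 1 / 10000 * (n : ℝ) ^ 2 / Real.log n ^ 2).card : ℝ) ≤ (N : ℝ) ^ (0.985 : ℝ)

open Classical in
/-- **DYA** (short, medium). Let `f N` be the number on the left. For `N ≥ 2 N₀ + 2` and `M = N / 2 + 1` (natural division; so
`N < 2 M`, `N₀ ≤ M ≤ N`) `f N ≤ f (N / 2) + M ^ 0.985 ≤ f (N / 2) + N ^ 0.985`. Strong induction: `f N ≤ A N ^ 0.99` with
`A = 2 N₀ + 4`: trivial for `N < 2 N₀ + 2` (`f N ≤ N`), and `A (N / 2) ^ 0.99 + N ^ 0.985 ≤ A N ^ 0.99` as `2 ^ (-0.99) ≤ 0.6`. -/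
def DYA_stmt : Prop := ∀ (S : ℕ → Prop) (N₀ : ℕ),
  (∀ N : ℕ, N₀ ≤ N → (((Ico N (2 * N)).filter S).card : ℝ) ≤ (N : ℝ) ^ (0.985 : ℝ)) →
  ∃ A : ℝ, ∀ N : ℕ, 1 ≤ N → (((Icc 1 N).filter S).card : ℝ) ≤ A * (N : ℝ) ^ (0.99 : ℝ)

end Pool.Agent.SY
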